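import Mathlib

set_option autoImplicit false

namespace Pool.Agent.Results.MP_7a24ab_lc.Aleph1Orbits

open Ordinal Cardinal Set Filter

/-- nodes of the binary tree; the head of the list is the last bit -/
abbrev Node := List Bool

/-- the initial segment of length `n` of a branch -/
def rp (x : ℕ → Bool) : ℕ → Node
  | 0 => []
  | n + 1 => x n :: rp x n

lemma rp_length (x : ℕ → Bool) (n : ℕ) : (rp x n).length = n := by
  induction n with
  | zero => rfl
  | succ n ih => simp [rp, ih]

/-- the cone above a node -/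
def cn (s : Node) : Set Node := {t | s <:+ t}

/-- nodes leaving the branch `x` exactly at level `n` -/
def pc (x : ℕ → Bool) (n : ℕ) : Set Node := cn (rp x n) \ cn (rp x (n + 1))

lemma cn_mono {s s' : Node} (h : s <:+ s') : cn s' ⊆ cn s := fun _ ht => h.trans ht

lemma rp_suffix (x : ℕ → Bool) {m n : ℕ} (h : m ≤ n) : rp x m <:+ rp x n := by
  induction n with
  | zero => rw [Nat.le_zero.mp h]
  | succ n ih =>
    rcases Nat.lt_or_ge m (n + 1) with h1 | h1
    · exact (ih (Nat.lt_succ_iff.mp h1)).trans (List.suffix_cons _ _)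
    · rw [Nat.le_antisymm h h1]

lemma suffix_eq {s s' t : Node} (h : s <:+ t) (h' : s' <:+ t) (hl : s.length = s'.length) :
    s = s' := by
  rcases List.suffix_or_suffix_of_suffix h h' with h1 | h1
  · exact h1.eq_of_length hl
  · exact (h1.eq_of_length hl.symm).symm

lemma cn_rp_length {x : ℕ → Bool} {n : ℕ} {t : Node} (h : t ∈ cn (rp x n)) : n ≤ t.length := by
  have := List.IsSuffix.length_le h
  rwa [rp_length] at this

/-- every node lies in some piece -/
lemma exists_pc (x : ℕ → Bool) (t : Node) : ∃ n, t ∈ pc x n := by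
  classical
  have h : ∃ n, t ∉ cn (rp x n) := ⟨t.length + 1, fun h => by
    have := cn_rp_length h; omega⟩
  have hn := Nat.find_spec h
  have hmin : ∀ m < Nat.find h, ¬ t ∉ cn (rp x m) := fun m hm => Nat.find_min h hm
  have h0 : Nat.find h ≠ 0 := by
    intro h0
    rw [h0] at hn
    exact hn (List.nil_suffix)
  obtain ⟨k, hk⟩ := Nat.exists_eq_succ_of_ne_zero h0
  refine ⟨k, ?_, ?_⟩
  · have := hmin k (by omega)
    exact not_not.mp this
  · rw [hk] at hn
    exact hn

lemma pc_disj {x : ℕ → Bool} {m n : ℕ} {t : Node} (hm : t ∈ pc x m) (hn : t ∈ pc x n) : m = n := by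
  by_contra hne
  rcases lt_or_gt_of_ne hne with h | h
  · exact hm.2 (cn_mono (rp_suffix x h) hn.1)
  · exact hn.2 (cn_mono (rp_suffix x h) hm.1)

lemma rp_congr {x y : ℕ → Bool} {m : ℕ} (h : ∀ i < m, x i = y i) : rp x m = rp y m := by
  induction m with
  | zero => rfl
  | succ m ih =>
    simp only [rp]
    rw [h m (Nat.lt_succ_self m), ih (fun i hi => h i (Nat.lt_succ_of_lt hi))]

lemma pc_far {x y : ℕ → Bool} {m n : ℕ} (h : ∀ i < m, x i = y i) (hm : x m ≠ y m) (hn : m < n) :
    pc x n ⊆ pc y m := by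
  intro t ht
  have h1 : t ∈ cn (rp x (m + 1)) := cn_mono (rp_suffix x hn) ht.1
  refine ⟨?_, ?_⟩
  · rw [← rp_congr h]
    exact cn_mono (rp_suffix x (Nat.le_succ m)) h1
  · intro h2
    have := suffix_eq h1 h2 (by rw [rp_length, rp_length])
    simp only [rp, List.cons.injEq] at this
    exact hm this.1

/-- `I β A`: the set `A` of nodes has rank at most `β`; finite sets have rank `0`, the sets of rank
at most `β` are closed under finite unions, and `A` has rank at most `β` when along some branch `x`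
the piece of `A` leaving `x` at level `n` has rank smaller than `β`, for all `n` -/
inductive I : Ordinal.{0} → Set Node → Prop
  | fin (β : Ordinal.{0}) (A : Set Node) : A.Finite → I β A
  | union (β : Ordinal.{0}) (A B : Set Node) : I β A → I β B → I β (A ∪ B)
  | lim (β : Ordinal.{0}) (A : Set Node) (x : ℕ → Bool) (γ : ℕ → Ordinal.{0}) :
      (∀ n, γ n < β) → (∀ n, I (γ n) (A ∩ pc x n)) → I β A

lemma I_mono {β β' : Ordinal.{0}} {A : Set Node} (h : I β A) (hb : β ≤ β') : I β' A := by
  induction h generalizing β' with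
  | fin β A hA => exact I.fin _ _ hA
  | union β A B _ _ ihA ihB => exact I.union _ _ _ (ihA hb) (ihB hb)
  | lim β A x γ hγ hI _ => exact I.lim _ _ x γ (fun n => (hγ n).trans_le hb) hI

lemma I_sub {β : Ordinal.{0}} {A C : Set Node} (h : I β A) (hC : C ⊆ A) : I β C := by
  induction h generalizing C with
  | fin β A hA => exact I.fin _ _ (hA.subset hC)
  | union β A B _ _ ihA ihB =>
    have : C = (C ∩ A) ∪ (C ∩ B) := by
      rw [← inter_union_distrib_left]
      exact (inter_eq_left.mpr hC).symm
    rw [this]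
    exact I.union _ _ _ (ihA inter_subset_right) (ihB inter_subset_right)
  | lim β A x γ hγ _ ih =>
    exact I.lim _ _ x γ hγ (fun n => ih n (inter_subset_inter_left _ hC))

lemma I_union_iff {β : Ordinal.{0}} {A B : Set Node} : I β (A ∪ B) ↔ I β A ∧ I β B :=
  ⟨fun h => ⟨I_sub h subset_union_left, I_sub h subset_union_right⟩, fun h => I.union _ _ _ h.1 h.2⟩

lemma I_zero {A : Set Node} : I 0 A ↔ A.Finite := by
  constructor
  · intro h
    generalize hβ : (0 : Ordinal.{0}) = β at h
    induction h with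
    | fin β A hA => exact hA
    | union β A B _ _ ihA ihB => exact (ihA hβ).union (ihB hβ)
    | lim β A x γ hγ _ _ =>
      subst hβ
      exact absurd (hγ 0) not_lt_zero
  · exact I.fin _ _

/-- eventual behaviour along every branch -/
lemma I_elim {β : Ordinal.{0}} {A : Set Node} (h : I β A) (hb : 0 < β) (x : ℕ → Bool) :
    ∀ᶠ n in atTop, ∃ γ < β, I γ (A ∩ pc x n) := by
  induction h with
  | fin β A hA =>
    have h1 : ∀ᶠ n in atTop, ∀ t ∈ A, t ∉ pc x n := by
      rw [eventually_all_finite hA]
      intro t _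
      obtain ⟨m, hm⟩ := exists_pc x t
      filter_upwards [eventually_gt_atTop m] with n hn h2
      exact absurd (pc_disj hm h2) (by omega)
    filter_upwards [h1] with n hn
    refine ⟨0, hb, I.fin _ _ ?_⟩
    have : A ∩ pc x n = ∅ := by
      ext t
      simp only [mem_inter_iff, mem_empty_iff_false, iff_false, not_and]
      exact fun h => hn t h
    rw [this]
    exact finite_empty
  | union β A B _ _ ihA ihB =>
    filter_upwards [ihA hb, ihB hb] with n h1 h2
    obtain ⟨γ1, h1, h1'⟩ := h1
    obtain ⟨γ2, h2, h2'⟩ := h2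
    refine ⟨max γ1 γ2, max_lt h1 h2, ?_⟩
    rw [union_inter_distrib_right]
    exact I.union _ _ _ (I_mono h1' (le_max_left _ _)) (I_mono h2' (le_max_right _ _))
  | lim β A y γ hγ hI _ =>
    by_cases hxy : x = y
    · subst hxy
      exact Eventually.of_forall fun n => ⟨γ n, hγ n, hI n⟩
    · classical
      have hex : ∃ m, x m ≠ y m := Function.ne_iff.mp hxy
      filter_upwards [eventually_gt_atTop (Nat.find hex)] with n hn
      refine ⟨γ (Nat.find hex), hγ _, I_sub (hI (Nat.find hex)) (inter_subset_inter_right _ ?_)⟩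
      exact pc_far (fun i hi => not_not.mp (Nat.find_min hex hi)) (Nat.find_spec hex) hn

lemma I_biUnion_finset {β : Ordinal.{0}} {ι : Type} (s : Finset ι) (C : ι → Set Node)
    (h : ∀ i ∈ s, I β (C i)) : I β (⋃ i ∈ s, C i) := by
  classical
  induction s using Finset.induction_on with
  | empty => simp only [Finset.notMem_empty, iUnion_of_empty, iUnion_empty]; exact I.fin _ _ finite_empty
  | insert a s ha ih =>
    rw [Finset.set_biUnion_insert]
    exact I.union _ _ _ (h a (Finset.mem_insert_self _ _))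
      (ih fun i hi => h i (Finset.mem_insert_of_mem hi))

/-- criterion along one branch -/
lemma I_of_pieces {β : Ordinal.{0}} {A : Set Node} (x : ℕ → Bool)
    (h1 : ∀ n, I β (A ∩ pc x n)) (h2 : ∀ᶠ n in atTop, ∃ γ < β, I γ (A ∩ pc x n)) : I β A := by
  obtain ⟨N, hN⟩ := eventually_atTop.mp h2
  have hA : A = (⋃ n ∈ Finset.range N, A ∩ pc x n) ∪ (A ∩ {t | ∀ n < N, t ∉ pc x n}) := by
    ext t
    simp only [mem_union, mem_iUnion, Finset.mem_range, mem_inter_iff, mem_ofPred_eq]
    constructor
    · intro ht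
      by_cases h : ∃ n < N, t ∈ pc x n
      · obtain ⟨n, hn, hn'⟩ := h
        exact Or.inl ⟨n, hn, ht, hn'⟩
      · right
        push Not at h
        exact ⟨ht, h⟩
    · rintro (⟨n, _, ht, _⟩ | ⟨ht, _⟩)
      · exact ht
      · exact ht
  rw [hA]
  refine I.union _ _ _ (I_biUnion_finset _ _ fun n _ => h1 n) ?_
  choose! γ hγ hγ' using hN
  obtain ⟨γ0, hγ0⟩ : ∃ γ0, γ0 < β := ⟨γ N, hγ N le_rfl⟩
  refine I.lim _ _ x (fun n => if N ≤ n then γ n else γ0) ?_ ?_
  · intro n
    split_ifs with h
    · exact hγ n h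
    · exact hγ0
  · intro n
    split_ifs with h
    · refine I_sub (hγ' n h) ?_
      exact inter_subset_inter_left _ inter_subset_left
    · refine I.fin _ _ ?_
      have : A ∩ {t | ∀ n < N, t ∉ pc x n} ∩ pc x n = ∅ := by
        ext t
        simp only [mem_inter_iff, mem_ofPred_eq, mem_empty_iff_false, iff_false, not_and]
        rintro ⟨_, h3⟩
        exact h3 n (not_le.mp h)
      rw [this]
      exact finite_empty

/-- rank at least `β` -/
def G (β : Ordinal.{0}) (B : Set Node) : Prop := ∀ γ < β, ¬ I γ B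

/-- nonempty and of rank at least `β` -/
def Gs (β : Ordinal.{0}) (B : Set Node) : Prop := B.Nonempty ∧ G β B

lemma cn_split (s : Node) : cn s = {s} ∪ (cn (false :: s) ∪ cn (true :: s)) := by
  ext t
  simp only [cn, mem_union, mem_singleton_iff, mem_ofPred_eq]
  constructor
  · rintro ⟨l, rfl⟩
    rcases List.eq_nil_or_concat l with rfl | ⟨l', b, rfl⟩
    · left; rfl
    · right
      cases b
      · left; exact ⟨l', by simp⟩
      · right; exact ⟨l', by simp⟩
  · rintro (h | h | h)
    · rw [h]
    · exact (List.suffix_cons _ _).trans h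
    · exact (List.suffix_cons _ _).trans h

lemma G_step {β : Ordinal.{0}} {B : Set Node} {s : Node} (h : G β (B ∩ cn s)) :
    ∃ b : Bool, G β (B ∩ cn (b :: s)) := by
  by_contra hc
  push Not at hc
  have h0 := hc false
  have h1 := hc true
  unfold G at h0 h1
  push Not at h0 h1
  obtain ⟨γ0, h0, h0'⟩ := h0
  obtain ⟨γ1, h1, h1'⟩ := h1
  refine h (max γ0 γ1) (max_lt h0 h1) ?_
  rw [cn_split, inter_union_distrib_left, inter_union_distrib_left]
  refine I.union _ _ _ (I.fin _ _ ((finite_singleton s).subset inter_subset_right))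
    (I.union _ _ _ (I_mono h0' (le_max_left _ _)) (I_mono h1' (le_max_right _ _)))

/-- a branch all of whose cones keep property `P`, when `P` passes to a child -/
lemma exists_branch_of_step (P : Node → Prop) (h0 : P []) (hs : ∀ s, P s → ∃ b : Bool, P (b :: s)) :
    ∃ x : ℕ → Bool, ∀ n, P (rp x n) := by
  classical
  let c : Node → Bool := fun s => if h : ∃ b : Bool, P (b :: s) then h.choose else false
  have hc : ∀ s, P s → P (c s :: s) := by
    intro s h
    have h2 := hs s h
    simp only [c, dif_pos h2]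
    exact h2.choose_spec
  let u : ℕ → Node := fun n => Nat.rec [] (fun _ s => c s :: s) n
  have hu : ∀ n, u (n + 1) = c (u n) :: u n := fun n => rfl
  refine ⟨fun n => c (u n), ?_⟩
  have h1 : ∀ n, rp (fun n => c (u n)) n = u n := by
    intro n
    induction n with
    | zero => rfl
    | succ n ih => rw [hu, rp, ih]
  intro n
  rw [h1]
  induction n with
  | zero => exact h0
  | succ n ih => rw [hu]; exact hc _ ih

lemma cn_diff_eq (x : ℕ → Bool) (N : ℕ) (B : Set Node) (n : ℕ) :
    (B ∩ cn (rp x N)) ∩ pc x n = if N ≤ n then B ∩ pc x n else ∅ := by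
  split_ifs with h
  · ext t
    simp only [mem_inter_iff]
    constructor
    · rintro ⟨⟨h1, _⟩, h2⟩; exact ⟨h1, h2⟩
    · rintro ⟨h1, h2⟩; exact ⟨⟨h1, cn_mono (rp_suffix x h) h2.1⟩, h2⟩
  · ext t
    simp only [mem_inter_iff, mem_empty_iff_false, iff_false, not_and]
    rintro ⟨_, h1⟩ h2
    exact h2.2 (cn_mono (rp_suffix x (by omega)) h1)

/-- limit points -/
lemma limpoint' {β : Ordinal.{0}} {B : Set Node} (h : G β B) :
    ∃ x : ℕ → Bool, (∀ n, G β (B ∩ cn (rp x n))) ∧ ∀ γ < β, ∃ᶠ n in atTop, Gs γ (B ∩ pc x n) := by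
  obtain ⟨x, hx⟩ := exists_branch_of_step (fun s => G β (B ∩ cn s)) (by
    have : cn [] = Set.univ := by
      ext t; simp [cn]
    rw [this, inter_univ]; exact h) (fun s hs => G_step hs)
  refine ⟨x, hx, fun γ hγ => ?_⟩
  by_contra hc
  rw [not_frequently] at hc
  obtain ⟨N, hN⟩ := eventually_atTop.mp hc
  have h1 : ∀ n ≥ N, B ∩ pc x n = ∅ ∨ ∃ δ < γ, I δ (B ∩ pc x n) := by
    intro n hn
    have := hN n hn
    unfold Gs G at this
    by_contra h2
    push Not at h2
    exact this ⟨h2.1, h2.2⟩
  rcases eq_or_ne γ 0 with h0 | h0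
  · -- all pieces beyond `N` are empty
    subst h0
    have h2 : B ∩ cn (rp x N) = ∅ := by
      ext t
      simp only [mem_empty_iff_false, iff_false]
      intro ht
      obtain ⟨n, hn⟩ := exists_pc x t
      have h3 := cn_diff_eq x N B n
      have h4 : t ∈ (B ∩ cn (rp x N)) ∩ pc x n := ⟨ht, hn⟩
      rw [h3] at h4
      split_ifs at h4 with h5
      · rcases h1 n h5 with h6 | ⟨δ, h6, _⟩
        · rw [h6] at h4; exact h4
        · exact absurd h6 not_lt_zero
      · exact h4
    have := hx N 0 hγ
    rw [h2] at this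
    exact this (I.fin _ _ finite_empty)
  · have hpos : 0 < γ := pos_iff_ne_zero.mpr h0
    have h2 : ∀ n, ∃ δ < γ, I δ ((B ∩ cn (rp x N)) ∩ pc x n) := by
      intro n
      rw [cn_diff_eq]
      split_ifs with h5
      · rcases h1 n h5 with h6 | h6
        · exact ⟨0, hpos, by rw [h6]; exact I.fin _ _ finite_empty⟩
        · exact h6
      · exact ⟨0, hpos, I.fin _ _ finite_empty⟩
    choose δ hδ hδ' using h2
    exact hx N γ hγ (I.lim _ _ x δ hδ hδ')

lemma limpoint {β : Ordinal.{0}} {B : Set Node} (h : G β B) :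
    ∃ x : ℕ → Bool, ∀ γ < β, ∃ᶠ n in atTop, Gs γ (B ∩ pc x n) := by
  obtain ⟨x, -, hx⟩ := limpoint' h
  exact ⟨x, hx⟩

/-- a union of pieces of prescribed ranks is large -/
lemma G_union {β : Ordinal.{0}} {x : ℕ → Bool} {φ : ℕ → ℕ} (hφ : Function.Injective φ)
    {C : ℕ → Set Node} (hC : ∀ k, C k ⊆ pc x (φ k)) {g : ℕ → Ordinal.{0}}
    (hg : ∀ δ < β, ∀ N, ∃ k ≥ N, g k = δ) (hGs : ∀ k, Gs (g k) (C k)) : G β (⋃ k, C k) := by
  intro δ hδ hI
  rcases eq_or_ne δ 0 with h0 | h0
  · subst h0
    rw [I_zero] at hI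
    choose p hp using fun k => (hGs k).1
    have hinj : Function.Injective p := by
      intro a b hab
      have h1 := hC a (hp a)
      have h2 := hC b (hp b)
      rw [hab] at h1
      exact hφ (pc_disj h1 h2)
    have h3 : (range p).Finite := hI.subset (by
      rintro _ ⟨k, rfl⟩
      exact mem_iUnion.mpr ⟨k, hp k⟩)
    exact (Set.infinite_range_of_injective hinj) h3
  · have hpos : 0 < δ := pos_iff_ne_zero.mpr h0
    have h1 := (hφ.nat_tendsto_atTop).eventually (I_elim hI hpos x)
    obtain ⟨N, hN⟩ := eventually_atTop.mp h1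
    obtain ⟨k, hk, hgk⟩ := hg δ hδ N
    obtain ⟨γ, hγ, hγ'⟩ := hN k hk
    refine (hGs k).2 γ (by rw [hgk]; exact hγ) (I_sub hγ' ?_)
    exact subset_inter (subset_iUnion C k) (hC k)

/-- enumeration of the ordinals below a countable ordinal, each infinitely often -/
lemma exists_enum {β : Ordinal.{0}} (hβ : 0 < β) (h1 : β < ω₁) :
    ∃ g : ℕ → Ordinal.{0}, (∀ k, g k < β) ∧ ∀ δ < β, ∀ N, ∃ k ≥ N, g k = δ := by
  have hc : (Set.Iio β).Countable := by
    rw [← Cardinal.le_aleph0_iff_set_countable, Cardinal.mk_Iio_ordinal,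
      ← Cardinal.lift_aleph0.{1, 0}, Cardinal.lift_le]
    have : β.card < ℵ₁ := by
      rw [← Cardinal.lt_ord]
      simpa using h1
    rw [← Cardinal.succ_aleph0] at this
    exact Order.lt_succ_iff.mp this
  obtain ⟨g0, hg0⟩ := hc.exists_eq_range ⟨0, hβ⟩
  refine ⟨fun k => g0 (Nat.unpair k).1, ?_, ?_⟩
  · intro k
    have : g0 (Nat.unpair k).1 ∈ Set.Iio β := by rw [hg0]; exact ⟨_, rfl⟩
    exact this
  · intro δ hδ N
    have : δ ∈ range g0 := by rw [← hg0]; exact hδ
    obtain ⟨j, hj⟩ := this
    refine ⟨Nat.pair j N, Nat.right_le_pair j N, ?_⟩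
    simp only [Nat.unpair_pair]
    exact hj

/-- splitting -/
lemma split_G {β : Ordinal.{0}} (hβ : 0 < β) (h1 : β < ω₁) {B : Set Node} (h : G β B) :
    ∃ B1 B2 : Set Node, B1 ⊆ B ∧ B2 ⊆ B ∧ Disjoint B1 B2 ∧ G β B1 ∧ G β B2 := by
  obtain ⟨x, hx⟩ := limpoint h
  obtain ⟨g, hg, hg'⟩ := exists_enum hβ h1
  obtain ⟨φ, hφ, hφ'⟩ := extraction_forall_of_frequently
    (P := fun k n => Gs (g (k / 2)) (B ∩ pc x n)) (fun k => hx _ (hg _))
  refine ⟨⋃ k, B ∩ pc x (φ (2 * k)), ⋃ k, B ∩ pc x (φ (2 * k + 1)), ?_, ?_, ?_, ?_, ?_⟩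
  · exact iUnion_subset fun k => inter_subset_left
  · exact iUnion_subset fun k => inter_subset_left
  · rw [Set.disjoint_left]
    intro t ht ht'
    obtain ⟨k, hk⟩ := mem_iUnion.mp ht
    obtain ⟨k', hk'⟩ := mem_iUnion.mp ht'
    have := hφ.injective (pc_disj hk.2 hk'.2)
    omega
  · refine G_union (φ := fun k => φ (2 * k)) (x := x) (g := g) ?_ (fun k => inter_subset_right) hg' ?_
    · intro a b hab
      have := hφ.injective hab
      omega
    · intro k
      have := hφ' (2 * k)
      rwa [show 2 * k / 2 = k by omega] at this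
  · refine G_union (φ := fun k => φ (2 * k + 1)) (x := x) (g := g) ?_
      (fun k => inter_subset_right) hg' ?_
    · intro a b hab
      have := hφ.injective hab
      omega
    · intro k
      have := hφ' (2 * k + 1)
      rwa [show (2 * k + 1) / 2 = k by omega] at this

/-- sets of every smaller rank -/
lemma down (β : Ordinal.{0}) : β < ω₁ → ∀ B : Set Node, Gs β B → ∃ C ⊆ B, I β C ∧ Gs β C := by
  induction β using WellFoundedLT.induction with
  | _ β ih =>
    intro h1 B hB
    rcases eq_or_ne β 0 with h0 | h0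
    · subst h0
      obtain ⟨p, hp⟩ := hB.1
      exact ⟨{p}, singleton_subset_iff.mpr hp, I.fin _ _ (finite_singleton p),
        singleton_nonempty p, fun γ hγ => absurd hγ not_lt_zero⟩
    · have hpos : 0 < β := pos_iff_ne_zero.mpr h0
      obtain ⟨x, hx⟩ := limpoint hB.2
      obtain ⟨g, hg, hg'⟩ := exists_enum hpos h1
      obtain ⟨φ, hφ, hφ'⟩ := extraction_forall_of_frequently
        (P := fun k n => Gs (g k) (B ∩ pc x n)) (fun k => hx _ (hg _))
      choose C hC hI hGs using fun k => ih (g k) (hg k) ((hg k).trans h1) _ (hφ' k)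
      have hCp : ∀ k, C k ⊆ pc x (φ k) := fun k => (hC k).trans inter_subset_right
      refine ⟨⋃ k, C k, iUnion_subset fun k => (hC k).trans inter_subset_left, ?_, ?_, ?_⟩
      · have h2 : ∀ n, ∃ δ < β, I δ ((⋃ k, C k) ∩ pc x n) := by
          intro n
          by_cases hn : ∃ k, φ k = n
          · obtain ⟨k, rfl⟩ := hn
            refine ⟨g k, hg k, I_sub (hI k) ?_⟩
            rintro t ⟨ht, ht'⟩
            obtain ⟨k', hk'⟩ := mem_iUnion.mp ht
            have := hφ.injective (pc_disj (hCp k' hk') ht')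
            rw [← this]; exact hk'
          · refine ⟨0, hpos, I.fin _ _ ?_⟩
            have : (⋃ k, C k) ∩ pc x n = ∅ := by
              ext t
              simp only [mem_inter_iff, mem_iUnion, mem_empty_iff_false, iff_false, not_and]
              rintro ⟨k', hk'⟩ ht'
              exact hn ⟨k', pc_disj (hCp k' hk') ht'⟩
            rw [this]; exact finite_empty
        choose δ hδ hδ' using h2
        exact I.lim _ _ x δ hδ hδ'
      · obtain ⟨p, hp⟩ := (hGs 0).1
        exact ⟨p, mem_iUnion.mpr ⟨0, hp⟩⟩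
      · exact G_union hφ.injective hCp hg' hGs

/-- rank-preserving on `A` -/
def RP (f : Node → Node) (A : Set Node) : Prop := ∀ C ⊆ A, ∀ δ : Ordinal.{0}, I δ (f '' C) ↔ I δ C

lemma RP_mono {f : Node → Node} {A B : Set Node} (h : RP f B) (hAB : A ⊆ B) : RP f A :=
  fun C hC => h C (hC.trans hAB)

lemma RP_union {f : Node → Node} {A B : Set Node} (hA : RP f A) (hB : RP f B) : RP f (A ∪ B) := by
  intro C hC δ
  have h1 : C = (C ∩ A) ∪ (C ∩ B) := by
    rw [← inter_union_distrib_left]
    exact (inter_eq_left.mpr hC).symm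
  rw [h1, image_union, I_union_iff, I_union_iff, hA _ inter_subset_right, hB _ inter_subset_right]

lemma RP_congr {f g : Node → Node} {A : Set Node} (h : RP f A) (hfg : EqOn f g A) : RP g A := by
  intro C hC δ
  rw [← h C hC, image_congr (fun t ht => hfg (hC ht))]

/-- gluing along pieces -/
lemma RP_pieces {f : Node → Node} {A : Set Node} {x y : ℕ → Bool} {φ : ℕ → ℕ}
    (hφ : Function.Injective φ) (hmap : ∀ n, ∀ t ∈ A ∩ pc x n, f t ∈ pc y (φ n))
    (hRP : ∀ n, RP f (A ∩ pc x n)) (hinj : InjOn f A) : RP f A := by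
  intro C hC δ
  rcases eq_or_ne δ 0 with h0 | h0
  · subst h0
    rw [I_zero, I_zero]
    exact Set.finite_image_iff (hinj.mono hC)
  · have hpos : 0 < δ := pos_iff_ne_zero.mpr h0
    have hCA : ∀ n, C ∩ pc x n ⊆ A ∩ pc x n := fun n => inter_subset_inter_left _ hC
    have e1 : ∀ n, f '' C ∩ pc y (φ n) = f '' (C ∩ pc x n) := by
      intro n
      ext s
      constructor
      · rintro ⟨⟨t, ht, rfl⟩, h2⟩
        obtain ⟨m, hm⟩ := exists_pc x t
        have := hφ (pc_disj (hmap m t ⟨hC ht, hm⟩) h2)
        subst this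
        exact ⟨t, ⟨ht, hm⟩, rfl⟩
      · rintro ⟨t, ⟨ht, ht'⟩, rfl⟩
        exact ⟨⟨t, ht, rfl⟩, hmap n t ⟨hC ht, ht'⟩⟩
    have e2 : ∀ m, (¬ ∃ n, φ n = m) → f '' C ∩ pc y m = ∅ := by
      intro m hm
      ext s
      simp only [mem_empty_iff_false, iff_false]
      rintro ⟨⟨t, ht, rfl⟩, h2⟩
      obtain ⟨n, hn⟩ := exists_pc x t
      exact hm ⟨n, pc_disj (hmap n t ⟨hC ht, hn⟩) h2⟩
    constructor
    · intro h
      refine I_of_pieces x ?_ ?_
      · intro n
        rw [← hRP n _ (hCA n), ← e1]
        exact I_sub h inter_subset_left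
      · have h1 := (hφ.nat_tendsto_atTop).eventually (I_elim h hpos y)
        filter_upwards [h1] with n hn
        obtain ⟨γ, hγ, hγ'⟩ := hn
        refine ⟨γ, hγ, ?_⟩
        rw [← hRP n _ (hCA n), ← e1]
        exact hγ'
    · intro h
      refine I_of_pieces y ?_ ?_
      · intro m
        by_cases hm : ∃ n, φ n = m
        · obtain ⟨n, rfl⟩ := hm
          rw [e1, hRP n _ (hCA n)]
          exact I_sub h inter_subset_left
        · rw [e2 m hm]; exact I.fin _ _ finite_empty
      · obtain ⟨N, hN⟩ := eventually_atTop.mp (I_elim h hpos x)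
        have h1 : ∀ᶠ m in atTop, ∀ n ∈ Finset.range N, φ n ≠ m := by
          rw [Filter.eventually_all_finset]
          intro n _
          filter_upwards [eventually_gt_atTop (φ n)] with m hm
          exact ne_of_lt hm
        filter_upwards [h1] with m hm
        by_cases hm' : ∃ n, φ n = m
        · obtain ⟨n, rfl⟩ := hm'
          have hn : N ≤ n := by
            by_contra hlt
            exact hm n (Finset.mem_range.mpr (not_le.mp hlt)) rfl
          obtain ⟨γ, hγ, hγ'⟩ := hN n hn
          refine ⟨γ, hγ, ?_⟩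
          rw [e1, hRP n _ (hCA n)]
          exact hγ'
        · exact ⟨0, hpos, by rw [e2 m hm']; exact I.fin _ _ finite_empty⟩

lemma G_infinite {β : Ordinal.{0}} (hβ : 0 < β) {B : Set Node} (h : G β B) : B.Infinite := by
  intro hf
  exact h 0 hβ (I.fin _ _ hf)

lemma embed_one {A B : Set Node} (hA : I 1 A) (hB : B.Infinite) :
    ∃ f : Node → Node, InjOn f A ∧ MapsTo f A B ∧ RP f A := by
  have hG : G 1 B := by
    intro γ hγ hI
    rw [Order.lt_one_iff] at hγ
    subst hγ
    exact hB (I_zero.mp hI)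
  obtain ⟨x, hx⟩ := limpoint hG
  obtain ⟨φ, hφ, hφ'⟩ := extraction_forall_of_frequently
    (P := fun _ n => Gs 0 (B ∩ pc x n)) (fun _ => hx 0 zero_lt_one)
  choose b hb using fun k => (hφ' k).1
  have hbinj : Function.Injective b := by
    intro i j hij
    have h1 := (hb i).2
    have h2 := (hb j).2
    rw [hij] at h1
    exact hφ.injective (pc_disj h1 h2)
  have hI1 : I 1 (range b) := by
    refine I.lim _ _ x (fun _ => 0) (fun _ => zero_lt_one) (fun n => I.fin _ _ ?_)
    apply Set.Subsingleton.finite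
    rintro _ ⟨⟨i, rfl⟩, h1⟩ _ ⟨⟨j, rfl⟩, h2⟩
    have e1 := pc_disj (hb i).2 h1
    have e2 := pc_disj (hb j).2 h2
    rw [hφ.injective (e1.trans e2.symm)]
  have hinj : Function.Injective (fun t : Node => b (Encodable.encode t)) :=
    hbinj.comp Encodable.encode_injective
  refine ⟨fun t => b (Encodable.encode t), hinj.injOn, fun t _ => (hb _).1, ?_⟩
  intro C hC δ
  rcases eq_or_ne δ 0 with h0 | h0
  · subst h0
    rw [I_zero, I_zero]
    exact Set.finite_image_iff hinj.injOn
  · have h1 : 1 ≤ δ := Order.one_le_iff_ne_zero.mpr h0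
    constructor
    · intro _
      exact I_mono (I_sub hA hC) h1
    · intro _
      refine I_mono (I_sub hI1 ?_) h1
      rintro _ ⟨t, _, rfl⟩
      exact ⟨_, rfl⟩

/-- embedding of a set of rank at most `β` into a set of rank at least `β` -/
theorem rank_embed {β : Ordinal.{0}} {A : Set Node} (hI : I β A) : β < ω₁ → ∀ B : Set Node,
    B.Infinite → G β B → ∃ f : Node → Node, InjOn f A ∧ MapsTo f A B ∧ RP f A := by
  classical
  induction hI with
  | fin β A hA => exact fun _ B hB _ => embed_one (I.fin _ _ hA) hB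
  | union β A1 A2 h1 h2 ih1 ih2 =>
    intro hω B hB hG
    rcases eq_or_ne β 0 with h0 | h0
    · subst h0
      exact embed_one (I_mono (I.union _ _ _ h1 h2) zero_le_one) hB
    · have hpos : 0 < β := pos_iff_ne_zero.mpr h0
      obtain ⟨B1, B2, hB1, hB2, hd, hG1, hG2⟩ := split_G hpos hω hG
      obtain ⟨f1, i1, m1, r1⟩ := ih1 hω B1 (G_infinite hpos hG1) hG1
      obtain ⟨f2, i2, m2, r2⟩ := ih2 hω B2 (G_infinite hpos hG2) hG2
      let f : Node → Node := fun t => if t ∈ A1 then f1 t else f2 t
      have e1 : ∀ t ∈ A1, f t = f1 t := fun t ht => if_pos ht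
      have e2 : ∀ t, t ∉ A1 → f t = f2 t := fun t ht => if_neg ht
      have hd' := Set.disjoint_left.mp hd
      refine ⟨f, ?_, ?_, ?_⟩
      · intro s hs t ht hst
        by_cases hs1 : s ∈ A1 <;> by_cases ht1 : t ∈ A1
        · rw [e1 s hs1, e1 t ht1] at hst
          exact i1 hs1 ht1 hst
        · rw [e1 s hs1, e2 t ht1] at hst
          have h3 := m1 hs1
          rw [hst] at h3
          exact absurd (m2 (ht.resolve_left ht1)) (hd' h3)
        · rw [e2 s hs1, e1 t ht1] at hst
          have h3 := m1 ht1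
          rw [← hst] at h3
          exact absurd (m2 (hs.resolve_left hs1)) (hd' h3)
        · rw [e2 s hs1, e2 t ht1] at hst
          exact i2 (hs.resolve_left hs1) (ht.resolve_left ht1) hst
      · intro t ht
        by_cases ht1 : t ∈ A1
        · rw [e1 t ht1]; exact hB1 (m1 ht1)
        · rw [e2 t ht1]; exact hB2 (m2 (ht.resolve_left ht1))
      · have h3 : A1 ∪ A2 = A1 ∪ (A2 \ A1) := by
          rw [union_sdiff_self]
        rw [h3]
        refine RP_union (RP_congr r1 (fun t ht => (e1 t ht).symm))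
          (RP_congr (RP_mono r2 sdiff_subset) (fun t ht => (e2 t ht.2).symm))
  | lim β A x γ hγ hI ih =>
    intro hω B hB hG
    rcases le_or_gt β 1 with h1 | h1
    · exact embed_one (I_mono (I.lim _ _ x γ hγ hI) h1) hB
    · obtain ⟨y, hy⟩ := limpoint hG
      obtain ⟨φ, hφ, hφ'⟩ := extraction_forall_of_frequently
        (P := fun k n => Gs (max (γ k) 1) (B ∩ pc y n)) (fun k => hy _ (max_lt (hγ k) h1))
      have hG' : ∀ k, G (γ k) (B ∩ pc y (φ k)) := fun k δ hδ =>
        (hφ' k).2 δ (hδ.trans_le (le_max_left _ _))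
      have hinf : ∀ k, (B ∩ pc y (φ k)).Infinite := fun k =>
        G_infinite (lt_of_lt_of_le zero_lt_one (le_max_right (γ k) 1)) (hφ' k).2
      choose f fi fm fr using fun k => ih k ((hγ k).trans hω) _ (hinf k) (hG' k)
      choose ν hν using exists_pc x
      have hνn : ∀ n, ∀ t ∈ pc x n, ν t = n := fun n t ht => pc_disj (hν t) ht
      let F : Node → Node := fun t => f (ν t) t
      have hF : ∀ n, ∀ t ∈ pc x n, F t = f n t := fun n t ht => by
        simp only [F]; rw [hνn n t ht]
      have hmap : ∀ n, ∀ t ∈ A ∩ pc x n, F t ∈ B ∩ pc y (φ n) := by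
        intro n t ht
        rw [hF n t ht.2]
        exact fm n ht
      have hinj : InjOn F A := by
        intro s hs t ht hst
        have h2 := hmap (ν s) s ⟨hs, hν s⟩
        have h3 := hmap (ν t) t ⟨ht, hν t⟩
        rw [hst] at h2
        have h4 := hφ.injective (pc_disj h2.2 h3.2)
        have h5 : t ∈ pc x (ν s) := by rw [h4]; exact hν t
        rw [hF (ν s) s (hν s), hF (ν s) t h5] at hst
        exact fi (ν s) ⟨hs, hν s⟩ ⟨ht, h5⟩ hst
      refine ⟨F, hinj, ?_, ?_⟩
      · intro t ht
        exact (hmap (ν t) t ⟨ht, hν t⟩).1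
      · refine RP_pieces hφ.injective (fun n t ht => (hmap n t ht).2) (fun n => ?_) hinj
        exact RP_congr (fr n) (fun t ht => (hF n t ht.2).symm)

/-- ranks are countable -/
lemma I_countable {β : Ordinal.{0}} {A : Set Node} (h : I β A) : ∃ β' < ω₁, I β' A := by
  induction h with
  | fin β A hA => exact ⟨0, omega_pos 1, I.fin _ _ hA⟩
  | union β A B _ _ ihA ihB =>
    obtain ⟨β1, h1, h1'⟩ := ihA
    obtain ⟨β2, h2, h2'⟩ := ihB
    exact ⟨max β1 β2, max_lt h1 h2, I.union _ _ _ (I_mono h1' (le_max_left _ _))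
      (I_mono h2' (le_max_right _ _))⟩
  | lim β A x γ hγ _ ih =>
    choose δ hδ hδ' using ih
    refine ⟨Order.succ (⨆ n, δ n), ?_, ?_⟩
    · exact (isSuccLimit_omega 1).succ_lt (Ordinal.iSup_lt_omega_one hδ)
    · exact I.lim _ _ x δ (fun n => Order.lt_succ_iff.mpr (Ordinal.le_iSup δ n)) hδ'

lemma G_omega_iff {B : Set Node} : G ω₁ B ↔ ∀ β, ¬ I β B := by
  constructor
  · intro h β hI
    obtain ⟨β', h1, h2⟩ := I_countable hI
    exact h β' h1 h2
  · exact fun h β _ => h β

lemma G_mono_set {β : Ordinal.{0}} {A B : Set Node} (h : G β A) (hAB : A ⊆ B) : G β B :=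
  fun γ hγ hI => h γ hγ (I_sub hI hAB)

lemma G_nonempty {β : Ordinal.{0}} (hβ : 0 < β) {B : Set Node} (h : G β B) : B.Nonempty :=
  (G_infinite hβ h).nonempty

/-- two incomparable large cones -/
lemma split_inf {B : Set Node} {s : Node} (h : G ω₁ (B ∩ cn s)) :
    ∃ s0 s1 : Node, s <:+ s0 ∧ s <:+ s1 ∧ G ω₁ (B ∩ cn s0) ∧ G ω₁ (B ∩ cn s1) ∧
      ¬ s0 <:+ s1 ∧ ¬ s1 <:+ s0 := by
  have hω : (0 : Ordinal.{0}) < ω₁ := omega_pos 1
  obtain ⟨x, hx1, hx2⟩ := limpoint' h
  have h1 : ∃ n, G ω₁ ((B ∩ cn s) ∩ pc x n) := by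
    by_contra hc
    push Not at hc
    unfold G at hc
    push Not at hc
    choose γ hγ hγ' using hc
    have h2 : Order.succ (⨆ n, γ n) < ω₁ :=
      (isSuccLimit_omega 1).succ_lt (Ordinal.iSup_lt_omega_one hγ)
    obtain ⟨n, hn⟩ := (hx2 _ h2).exists
    exact hn.2 (γ n) (Order.lt_succ_iff.mpr (Ordinal.le_iSup γ n)) (hγ' n)
  obtain ⟨n, hn⟩ := h1
  have hs0 := hx1 (n + 1)
  have hs1 : G ω₁ ((B ∩ cn s) ∩ cn ((!x n) :: rp x n)) := by
    intro γ hγ hI
    refine hn γ hγ ?_
    have h2 : (B ∩ cn s) ∩ pc x n ⊆ {rp x n} ∪ (B ∩ cn s) ∩ cn ((!x n) :: rp x n) := by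
      rintro t ⟨ht, ht1, ht2⟩
      rw [cn_split] at ht1
      rcases ht1 with h3 | h3 | h3
      · left; exact h3
      · rcases hxn : x n with _ | _
        · exfalso; apply ht2; simp only [rp, hxn]; exact h3
        · right; refine ⟨ht, ?_⟩; simpa using h3
      · rcases hxn : x n with _ | _
        · right; refine ⟨ht, ?_⟩; simpa using h3
        · exfalso; apply ht2; simp only [rp, hxn]; exact h3
    exact I_sub (I.union _ _ _ (I.fin _ _ (finite_singleton _)) hI) h2
  have hne : x n :: rp x n ≠ (!x n) :: rp x n := by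
    intro h3
    simp only [List.cons.injEq, and_true] at h3
    cases hxn : x n <;> simp [hxn] at h3
  have hinc : ∀ (a b : Bool), a ≠ b → ¬ (a :: rp x n) <:+ (b :: rp x n) := by
    intro a b hab h3
    have := h3.eq_of_length (by simp)
    simp only [List.cons.injEq, and_true] at this
    exact hab this
  have hab : x n ≠ !x n := by cases x n <;> simp
  -- both children extend `s`
  have key : ∀ a b : Bool, a ≠ b → G ω₁ ((B ∩ cn s) ∩ cn (a :: rp x n)) →
      G ω₁ ((B ∩ cn s) ∩ cn (b :: rp x n)) → s <:+ a :: rp x n := by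
    intro a b hab ha hb
    obtain ⟨t, ht⟩ := G_nonempty hω ha
    obtain ⟨t', ht'⟩ := G_nonempty hω hb
    rcases List.suffix_or_suffix_of_suffix ht.1.2 ht.2 with h3 | h3
    · exact h3
    · exfalso
      have h4 : (a :: rp x n) <:+ t' := h3.trans ht'.1.2
      have h5 := suffix_eq h4 ht'.2 (by simp)
      simp only [List.cons.injEq, and_true] at h5
      exact hab h5
  refine ⟨x n :: rp x n, (!x n) :: rp x n, key _ _ hab hs0 hs1, key _ _ hab.symm hs1 hs0, ?_, ?_,
    hinc _ _ hab, hinc _ _ hab.symm⟩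
  · exact G_mono_set hs0 (inter_subset_inter_left _ inter_subset_left)
  · exact G_mono_set hs1 (inter_subset_inter_left _ inter_subset_left)

lemma long_inf {B : Set Node} {s : Node} (h : G ω₁ (B ∩ cn s)) (N : ℕ) :
    ∃ s', s <:+ s' ∧ N < s'.length ∧ G ω₁ (B ∩ cn s') := by
  induction N with
  | zero =>
    obtain ⟨b, hb⟩ := G_step h
    exact ⟨b :: s, List.suffix_cons _ _, by simp, hb⟩
  | succ N ih =>
    obtain ⟨s', h1, h2, h3⟩ := ih
    obtain ⟨b, hb⟩ := G_step h3
    exact ⟨b :: s', h1.trans (List.suffix_cons _ _), by simp; omega, hb⟩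

/-- data attached to a large cone -/
lemma node_data {B : Set Node} {s : Node} (h : G ω₁ (B ∩ cn s)) :
    ∃ (p : Node) (c : Bool → Node), p ∈ B ∧ s <:+ p ∧ (∀ b, s <:+ c b) ∧
      (∀ b, p.length < (c b).length) ∧ (∀ b, G ω₁ (B ∩ cn (c b))) ∧
      ∀ b b', b ≠ b' → ¬ c b <:+ c b' := by
  obtain ⟨p, hp⟩ := G_nonempty (omega_pos 1) h
  obtain ⟨s', h1, h2, h3⟩ := long_inf h p.length
  obtain ⟨s0, s1, h4, h5, h6, h7, h8, h9⟩ := split_inf h3
  refine ⟨p, fun b => if b then s1 else s0, hp.1, hp.2, ?_, ?_, ?_, ?_⟩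
  · intro b
    cases b
    · exact h1.trans h4
    · exact h1.trans h5
  · intro b
    cases b
    · exact lt_of_lt_of_le h2 h4.length_le
    · exact lt_of_lt_of_le h2 h5.length_le
  · intro b
    cases b
    · exact h6
    · exact h7
  · intro b b' hbb
    cases b <;> cases b' <;> simp at hbb ⊢
    · exact h8
    · exact h9

/-- the branch through a chain of nodes -/
def br (s : Node) (i : ℕ) : Bool := s.reverse.getD i false

lemma br_cons {a : Bool} {s : Node} {i : ℕ} (h : i < s.length) : br (a :: s) i = br s i := by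
  unfold br
  rw [List.reverse_cons, List.getD_append _ _ _ _ (by simpa using h)]

lemma br_cons_self (a : Bool) (s : Node) : br (a :: s) s.length = a := by
  unfold br
  rw [List.reverse_cons, List.getD_append_right _ _ _ _ (by simp)]
  simp

lemma rp_br (s : Node) : rp (br s) s.length = s := by
  induction s with
  | nil => rfl
  | cons a s ih =>
    rw [List.length_cons, rp, br_cons_self]
    congr 1
    rw [rp_congr (fun i hi => br_cons hi)]
    exact ih

lemma br_suffix {s t : Node} (h : s <:+ t) {i : ℕ} (hi : i < s.length) : br t i = br s i := by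
  obtain ⟨l, rfl⟩ := h
  induction l with
  | nil => rfl
  | cons a l ih =>
    rw [List.cons_append, br_cons (by rw [List.length_append]; omega)]
    exact ih

lemma exists_chain_branch (u : ℕ → Node) (hu : ∀ n, u n <:+ u (n + 1)) (hl : ∀ n, n ≤ (u n).length) :
    ∃ y : ℕ → Bool, ∀ n, rp y (u n).length = u n := by
  have hmono : ∀ m n, m ≤ n → u m <:+ u n := by
    intro m n h
    induction n with
    | zero => rw [Nat.le_zero.mp h]
    | succ n ih =>
      rcases Nat.lt_or_ge m (n + 1) with h1 | h1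
      · exact (ih (Nat.lt_succ_iff.mp h1)).trans (hu n)
      · rw [Nat.le_antisymm h h1]
  refine ⟨fun i => br (u (i + 1)) i, fun n => ?_⟩
  have h1 : rp (fun i => br (u (i + 1)) i) (u n).length = rp (br (u n)) (u n).length := by
    apply rp_congr
    intro i hi
    have hi' : i < (u (i + 1)).length := lt_of_lt_of_le (Nat.lt_succ_self i) (hl (i + 1))
    rcases le_total (i + 1) n with h | h
    · exact (br_suffix (hmono _ _ h) hi').symm
    · exact br_suffix (hmono _ _ h) hi
  rw [h1, rp_br]

/-- embedding of the whole tree into a set of rank infinity -/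
theorem inf_embed {B : Set Node} (h : ∀ β, ¬ I β B) :
    ∃ f : Node → Node, Function.Injective f ∧ (∀ t, f t ∈ B) ∧ RP f Set.univ := by
  classical
  have hroot : G ω₁ (B ∩ cn []) := by
    have : cn [] = Set.univ := by
      ext t; simp [cn]
    rw [this, inter_univ]
    exact G_omega_iff.mpr h
  let S := {s : Node // G ω₁ (B ∩ cn s)}
  choose p c hpB hsp hsc hlen hG hinc using fun s : S => node_data s.2
  let c' : S → Bool → S := fun s b => ⟨c s b, hG s b⟩
  let e : Node → S := fun t => List.rec ⟨[], hroot⟩ (fun b _ s => c' s b) t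
  have e_nil : e [] = ⟨[], hroot⟩ := rfl
  have e_cons : ∀ b t, e (b :: t) = c' (e t) b := fun b t => rfl
  let f : Node → Node := fun t => p (e t)
  have hfe : ∀ t, (e t).1 <:+ f t := fun t => hsp (e t)
  have E1 : ∀ s t : Node, s <:+ t → (e s).1 <:+ (e t).1 := by
    rintro s t ⟨l, rfl⟩
    induction l with
    | nil => exact List.suffix_rfl
    | cons b l ih =>
      rw [List.cons_append, e_cons]
      exact ih.trans (hsc _ _)
  have Elen : ∀ (b : Bool) (u : Node), (f u).length < (e (b :: u)).1.length := fun b u => hlen (e u) b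
  have Einc : ∀ (b b' : Bool) (u t : Node), b ≠ b' → (b :: u) <:+ t → ¬ (e (b' :: u)).1 <:+ f t := by
    intro b b' u t hbb h1 h2
    have h3 : (e (b :: u)).1 <:+ f t := (E1 _ _ h1).trans (hfe t)
    rcases List.suffix_or_suffix_of_suffix h3 h2 with h4 | h4
    · exact hinc (e u) b b' hbb h4
    · exact hinc (e u) b' b hbb.symm h4
  -- behaviour along a branch
  have E4 : ∀ (x : ℕ → Bool) (n : ℕ) (t : Node), t ∈ pc x n →
      (e (rp x n)).1 <:+ f t ∧ ¬ (e (rp x (n + 1))).1 <:+ f t := by
    intro x n t ht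
    refine ⟨(E1 _ _ ht.1).trans (hfe t), ?_⟩
    have h1 := ht.1
    rw [cn_split] at h1
    have h2 : ∀ b : Bool, t ∈ cn (b :: rp x n) → b ≠ x n := by
      intro b hb hbx
      subst hbx
      exact ht.2 hb
    rcases h1 with h1 | h1 | h1
    · intro h3
      have h4 := h3.length_le
      have h5 := Elen (x n) (rp x n)
      rw [mem_singleton_iff] at h1
      rw [h1] at h4
      simp only [rp] at h4
      omega
    · exact Einc _ _ _ _ (h2 _ h1) h1
    · exact Einc _ _ _ _ (h2 _ h1) h1
  have hinj : Function.Injective f := by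
    intro s t hst
    by_contra hne
    -- compare along the branch of `t`
    wlog hlt : s.length ≤ t.length generalizing s t
    · exact this hst.symm (fun h => hne h.symm) (le_of_not_ge hlt)
    have hrt : rp (br t) t.length = t := rp_br t
    obtain ⟨n, hn⟩ := exists_pc (br t) s
    have hns : n ≤ s.length := cn_rp_length hn.1
    rcases Nat.lt_or_ge n t.length with h1 | h1
    · have h2 := (E4 (br t) n s hn).2
      have h5 : rp (br t) (n + 1) <:+ t := by
        have h6 := rp_suffix (br t) (show n + 1 ≤ t.length from h1)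
        rw [hrt] at h6
        exact h6
      apply h2
      rw [hst]
      exact (E1 _ _ h5).trans (hfe t)
    · have h3 : n = t.length := by omega
      apply hne
      have h4 : t <:+ s := by
        have := hn.1
        rw [h3, hrt] at this
        exact this
      exact (h4.eq_of_length (by omega)).symm
  -- the image branch
  have hchain : ∀ x : ℕ → Bool, ∃ y : ℕ → Bool, ∀ n, rp y (e (rp x n)).1.length = (e (rp x n)).1 := by
    intro x
    apply exists_chain_branch
    · intro n; exact E1 _ _ (rp_suffix x (Nat.le_succ n))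
    · intro n
      induction n with
      | zero => exact Nat.zero_le _
      | succ n ih =>
        have h1 := Elen (x n) (rp x n)
        have h2 := (hfe (rp x n)).length_le
        simp only [rp]
        omega
  have hpiece : ∀ (x y : ℕ → Bool), (∀ n, rp y (e (rp x n)).1.length = (e (rp x n)).1) →
      ∀ n t m, t ∈ pc x n → f t ∈ pc y m →
      (e (rp x n)).1.length ≤ m ∧ m < (e (rp x (n + 1))).1.length := by
    intro x y hy n t m ht hm
    obtain ⟨h1, h2⟩ := E4 x n t ht
    constructor
    · by_contra hlt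
      apply hm.2
      refine cn_mono (rp_suffix y (show m + 1 ≤ (e (rp x n)).1.length by omega)) ?_
      rw [hy]; exact h1
    · by_contra hge
      apply h2
      rw [← hy (n + 1)]
      exact (rp_suffix y (not_lt.mp hge)).trans hm.1
  refine ⟨f, hinj, fun t => hpB (e t), ?_⟩
  have hforward : ∀ (δ : Ordinal.{0}) (C : Set Node), I δ C → I δ (f '' C) := by
    intro δ C hI
    induction hI with
    | fin β A hA => exact I.fin _ _ (hA.image f)
    | union β A A' _ _ ihA ihA' => rw [image_union]; exact I.union _ _ _ ihA ihA'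
    | lim β A x γ hγ _ ih =>
      obtain ⟨y, hy⟩ := hchain x
      have h1 : ∀ m, ∃ δ' < β, I δ' (f '' A ∩ pc y m) := by
        intro m
        by_cases hex : ∃ t ∈ A, f t ∈ pc y m
        · obtain ⟨t, _, ht⟩ := hex
          obtain ⟨n, hn⟩ := exists_pc x t
          have hm := hpiece x y hy n t m hn ht
          refine ⟨γ n, hγ n, I_sub (ih n) ?_⟩
          rintro _ ⟨⟨t', ht', rfl⟩, hm'⟩
          obtain ⟨n', hn'⟩ := exists_pc x t'
          have hm2 := hpiece x y hy n' t' m hn' hm'
          have hnn : n' = n := by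
            by_contra hne
            rcases lt_or_gt_of_ne hne with h3 | h3
            · have := (E1 _ _ (rp_suffix x (show n' + 1 ≤ n from h3))).length_le
              omega
            · have := (E1 _ _ (rp_suffix x (show n + 1 ≤ n' from h3))).length_le
              omega
          subst hnn
          exact ⟨t', ⟨ht', hn'⟩, rfl⟩
        · have : f '' A ∩ pc y m = ∅ := by
            ext s
            simp only [mem_empty_iff_false, iff_false]
            rintro ⟨⟨t, ht, rfl⟩, ht'⟩
            exact hex ⟨t, ht, ht'⟩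
          rw [this]
          exact ⟨γ 0, hγ 0, I.fin _ _ finite_empty⟩
      choose δ' h2 h3 using h1
      exact I.lim _ _ y δ' h2 h3
  have hbackward : ∀ (δ : Ordinal.{0}) (C : Set Node), I δ (f '' C) → I δ C := by
    intro δ
    induction δ using WellFoundedLT.induction with
    | _ δ ih =>
      intro C hI
      rcases eq_or_ne δ 0 with h0 | h0
      · subst h0
        rw [I_zero] at hI ⊢
        exact (Set.finite_image_iff hinj.injOn).mp hI
      · have hpos : 0 < δ := pos_iff_ne_zero.mpr h0
        by_contra hC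
        have hG1 : G (Order.succ δ) C := by
          intro γ hγ hγI
          exact hC (I_mono hγI (Order.lt_succ_iff.mp hγ))
        obtain ⟨x, hx⟩ := limpoint hG1
        have hfreq := hx δ (Order.lt_succ δ)
        obtain ⟨y, hy⟩ := hchain x
        obtain ⟨M, hM⟩ := eventually_atTop.mp (I_elim hI hpos y)
        obtain ⟨n, hn, hn'⟩ := (hfreq.and_eventually (eventually_ge_atTop M)).exists
        have hlen' : M ≤ (e (rp x n)).1.length := by
          have h1 : ∀ n, n ≤ (e (rp x n)).1.length := by
            intro n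
            induction n with
            | zero => exact Nat.zero_le _
            | succ n ih =>
              have h1 := Elen (x n) (rp x n)
              have h2 := (hfe (rp x n)).length_le
              simp only [rp]
              omega
          exact hn'.trans (h1 n)
        choose! γ hγ hγ' using hM
        have hsub : f '' (C ∩ pc x n) ⊆ ⋃ m ∈ Finset.Ico (e (rp x n)).1.length
            (e (rp x (n + 1))).1.length, f '' C ∩ pc y m := by
          rintro _ ⟨t, ⟨ht, ht'⟩, rfl⟩
          obtain ⟨m, hm⟩ := exists_pc y (f t)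
          have := hpiece x y hy n t m ht' hm
          simp only [mem_iUnion, Finset.mem_Ico]
          exact ⟨m, this, ⟨t, ht, rfl⟩, hm⟩
        -- a common bound
        have hbound : ∃ ε < δ, ∀ m ∈ Finset.Ico (e (rp x n)).1.length
            (e (rp x (n + 1))).1.length, I ε (f '' C ∩ pc y m) := by
          have h5 : ∀ s : Finset ℕ, (∀ m ∈ s, M ≤ m) →
              ∃ ε < δ, ∀ m ∈ s, I ε (f '' C ∩ pc y m) := by
            intro s
            induction s using Finset.induction_on with
            | empty => intro _; exact ⟨0, hpos, by simp⟩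
            | insert a s ha ih2 =>
              intro hs
              obtain ⟨ε, h6, h7⟩ := ih2 (fun m hm => hs m (Finset.mem_insert_of_mem hm))
              refine ⟨max (γ a) ε, max_lt (hγ a (hs a (Finset.mem_insert_self _ _))) h6, ?_⟩
              intro m hm
              rw [Finset.mem_insert] at hm
              rcases hm with rfl | hm
              · exact I_mono (hγ' m (hs m (Finset.mem_insert_self _ _))) (le_max_left _ _)
              · exact I_mono (h7 m hm) (le_max_right _ _)
          exact h5 _ (fun m hm => hlen'.trans (Finset.mem_Ico.mp hm).1)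
        obtain ⟨ε, hε, hε'⟩ := hbound
        have h8 : I ε (f '' (C ∩ pc x n)) := I_sub (I_biUnion_finset _ _ hε') hsub
        exact hn.2 ε hε (ih ε hε _ h8)
  exact fun C _ δ => ⟨hbackward δ C, hforward δ C⟩

/-- rank-preserving bijection from embeddings in both directions -/
lemma csb {A B : Set Node} {f g : Node → Node} (fi : InjOn f A) (fm : MapsTo f A B) (fr : RP f A)
    (gi : InjOn g B) (gm : MapsTo g B A) (gr : RP g B) :
    ∃ h : Node → Node, BijOn h A B ∧ RP h A := by
  classical
  let f' : A → B := fun a => ⟨f a, fm a.2⟩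
  let g' : B → A := fun b => ⟨g b, gm b.2⟩
  have hf' : Function.Injective f' := by
    intro a b hab
    exact Subtype.ext (fi a.2 b.2 (congrArg Subtype.val hab))
  have hg' : Function.Injective g' := by
    intro a b hab
    exact Subtype.ext (gi a.2 b.2 (congrArg Subtype.val hab))
  obtain ⟨h', hb, hh⟩ := Function.Embedding.schroeder_bernstein_of_rel hf' hg'
    (fun a b => f' a = b ∨ g' b = a) (fun a => Or.inl rfl) (fun b => Or.inr rfl)
  let h : Node → Node := fun t => if ht : t ∈ A then (h' ⟨t, ht⟩ : Node) else t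
  have hval : ∀ (t : Node) (ht : t ∈ A), h t = h' ⟨t, ht⟩ := fun t ht => dif_pos ht
  refine ⟨h, ⟨?_, ?_, ?_⟩, ?_⟩
  · intro t ht
    rw [hval t ht]
    exact (h' ⟨t, ht⟩).2
  · intro s hs t ht hst
    rw [hval s hs, hval t ht] at hst
    exact congrArg Subtype.val (hb.1 (Subtype.ext hst))
  · intro b hb'
    obtain ⟨a, ha⟩ := hb.2 ⟨b, hb'⟩
    refine ⟨a.1, a.2, ?_⟩
    rw [hval a.1 a.2, ha]
  · -- split `A` according to which map is used
    let A1 : Set Node := {t | t ∈ A ∧ h t = f t}
    have hA : A = A1 ∪ (A \ A1) := by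
      rw [union_sdiff_self, eq_comm, union_eq_right]
      exact fun t ht => ht.1
    have h1 : RP h A1 := RP_congr (RP_mono fr (fun t ht => ht.1)) (fun t ht => ht.2.symm)
    have h2 : ∀ t ∈ A \ A1, h t ∈ B ∧ g (h t) = t := by
      rintro t ⟨ht, ht1⟩
      have h3 : f' ⟨t, ht⟩ ≠ h' ⟨t, ht⟩ := by
        intro h4
        apply ht1
        refine ⟨ht, ?_⟩
        rw [hval t ht, ← h4]
      have h4 := (hh ⟨t, ht⟩).resolve_left h3
      rw [hval t ht]
      exact ⟨(h' ⟨t, ht⟩).2, congrArg Subtype.val h4⟩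
    have h3 : RP h (A \ A1) := by
      intro C hC δ
      have h4 : h '' C ⊆ B := by
        rintro _ ⟨t, ht, rfl⟩
        exact (h2 t (hC ht)).1
      have h5 : g '' (h '' C) = C := by
        rw [image_image]
        ext t
        constructor
        · rintro ⟨s, hs, rfl⟩
          change g (h s) ∈ C
          rw [(h2 s (hC hs)).2]; exact hs
        · intro ht
          exact ⟨t, ht, (h2 t (hC ht)).2⟩
      rw [← gr _ h4, h5]
    rw [hA]
    exact RP_union h1 h3

/-- homogeneity -/
theorem homog {A B : Set Node} (hcard : A.encard = B.encard) (hI : ∀ β, I β A ↔ I β B) :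
    ∃ h : Node → Node, BijOn h A B ∧ RP h A := by
  classical
  by_cases hA : A.Finite
  · have hB : B.Finite := by
      rw [← Set.encard_lt_top_iff, ← hcard]
      exact hA.encard_lt_top
    have hne : Nonempty Node := ⟨[]⟩
    obtain ⟨h, h1⟩ := hA.exists_bijOn_of_encard_eq hcard
    refine ⟨h, h1, ?_⟩
    intro C hC δ
    exact ⟨fun _ => I.fin _ _ (hA.subset hC), fun _ => I.fin _ _ ((hA.subset hC).image h)⟩
  · have hB : ¬ B.Finite := by
      rw [← Set.encard_lt_top_iff, ← hcard, Set.encard_lt_top_iff]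
      exact hA
    by_cases hex : ∃ β, I β A
    · obtain ⟨β', hβ', hIβ'⟩ := I_countable hex.choose_spec
      -- least rank
      have hwf := WellFounded.has_min (wellFounded_lt (α := Ordinal.{0})) {β | I β A} ⟨β', hIβ'⟩
      obtain ⟨β, hβ, hmin⟩ := hwf
      have hβω : β < ω₁ := lt_of_le_of_lt (not_lt.mp (hmin β' hIβ')) hβ'
      have hGA : G β A := fun γ hγ hI' => hmin γ hI' hγ
      have hGB : G β B := fun γ hγ hI' => hmin γ ((hI γ).mpr hI') hγ
      obtain ⟨f, fi, fm, fr⟩ := rank_embed hβ hβω B hB hGB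
      obtain ⟨g, gi, gm, gr⟩ := rank_embed ((hI β).mp hβ) hβω A hA hGA
      exact csb fi fm fr gi gm gr
    · push Not at hex
      have hexB : ∀ β, ¬ I β B := fun β h => hex β ((hI β).mpr h)
      obtain ⟨f, fi, fm, fr⟩ := inf_embed hexB
      obtain ⟨g, gi, gm, gr⟩ := inf_embed hex
      exact csb fi.injOn (fun t _ => fm t) (RP_mono fr (subset_univ _)) gi.injOn (fun t _ => gm t)
        (RP_mono gr (subset_univ _))

/-- the group of rank-preserving permutations -/
def H : Subgroup (Equiv.Perm Node) where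
  carrier := {g | ∀ (C : Set Node) (δ : Ordinal.{0}), I δ (g '' C) ↔ I δ C}
  one_mem' := fun C δ => by simp
  mul_mem' := fun {a b} ha hb C δ => by
    have : (⇑(a * b) '' C) = a '' (b '' C) := by
      rw [image_image]; rfl
    rw [this]
    exact (ha _ _).trans (hb _ _)
  inv_mem' := fun {a} ha C δ => by
    have h1 := ha (⇑a⁻¹ '' C) δ
    have h2 : a '' (⇑a⁻¹ '' C) = C := by
      rw [image_image]
      simp
    rw [h2] at h1
    exact h1.symm

/-- the orbit equivalence relation of a permutation group on the power set -/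
def orbitSetoid {Ω : Type} (H : Subgroup (Equiv.Perm Ω)) : Setoid (Set Ω) where
  r A B := ∃ g ∈ H, (⇑g) '' A = B
  iseqv :=
    { refl := fun A => ⟨1, H.one_mem, by simp⟩
      symm := by
        rintro A B ⟨g, hg, rfl⟩
        exact ⟨g⁻¹, H.inv_mem hg, by rw [image_image]; simp⟩
      trans := by
        rintro A B C ⟨g, hg, rfl⟩ ⟨h, hh, rfl⟩
        exact ⟨h * g, H.mul_mem hh hg, by rw [image_image]; rfl⟩ }

/-- orbits are determined by cardinality and rank of the set and of its complement -/
theorem orbit_iff (A B : Set Node) : (orbitSetoid H).r A B ↔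
    (A.encard = B.encard ∧ ∀ β, I β A ↔ I β B) ∧ (Aᶜ.encard = Bᶜ.encard ∧ ∀ β, I β Aᶜ ↔ I β Bᶜ) := by
  classical
  constructor
  · rintro ⟨g, hg, rfl⟩
    refine ⟨⟨(g.injective.encard_image A).symm, fun β => (hg A β).symm⟩, ?_⟩
    rw [← Set.image_compl_eq g.bijective]
    exact ⟨(g.injective.encard_image _).symm, fun β => (hg _ β).symm⟩
  · rintro ⟨⟨h1, h2⟩, ⟨h3, h4⟩⟩
    obtain ⟨f, fb, fr⟩ := homog h1 h2
    obtain ⟨k, kb, kr⟩ := homog h3 h4
    let F : Node → Node := fun t => if t ∈ A then f t else k t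
    have e1 : ∀ t ∈ A, F t = f t := fun t ht => if_pos ht
    have e2 : ∀ t ∈ Aᶜ, F t = k t := fun t ht => if_neg ht
    have hbij : Function.Bijective F := by
      constructor
      · intro s t hst
        by_cases hs : s ∈ A <;> by_cases ht : t ∈ A
        · rw [e1 s hs, e1 t ht] at hst
          exact fb.injOn hs ht hst
        · rw [e1 s hs, e2 t ht] at hst
          have h5 := fb.mapsTo hs
          rw [hst] at h5
          exact absurd h5 (kb.mapsTo ht)
        · rw [e2 s hs, e1 t ht] at hst
          have h5 := fb.mapsTo ht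
          rw [← hst] at h5
          exact absurd h5 (kb.mapsTo hs)
        · rw [e2 s hs, e2 t ht] at hst
          exact kb.injOn hs ht hst
      · intro b
        by_cases hb : b ∈ B
        · obtain ⟨a, ha, rfl⟩ := fb.surjOn hb
          exact ⟨a, e1 a ha⟩
        · obtain ⟨a, ha, rfl⟩ := kb.surjOn hb
          exact ⟨a, e2 a ha⟩
    have hRP : RP F (A ∪ Aᶜ) := RP_union (RP_congr fr (fun t ht => (e1 t ht).symm))
      (RP_congr kr (fun t ht => (e2 t ht).symm))
    rw [union_compl_self] at hRP
    refine ⟨Equiv.ofBijective F hbij, fun C δ => hRP C (subset_univ _) δ, ?_⟩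
    change F '' A = B
    rw [image_congr (fun t ht => e1 t ht)]
    exact fb.image_eq

lemma cn_infinite (s : Node) : (cn s).Infinite := by
  have h : Function.Injective (fun l : Node => l ++ s) := fun a b hab => List.append_left_injective s hab
  refine (Set.infinite_range_of_injective h).mono ?_
  rintro _ ⟨l, rfl⟩
  exact ⟨l, rfl⟩

/-- cones have no rank -/
lemma not_I_cn (β : Ordinal.{0}) : ∀ s : Node, ¬ I β (cn s) := by
  induction β using WellFoundedLT.induction with
  | _ β ih =>
    intro s hI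
    rcases eq_or_ne β 0 with h0 | h0
    · subst h0
      exact cn_infinite s (I_zero.mp hI)
    · have hpos : 0 < β := pos_iff_ne_zero.mpr h0
      obtain ⟨n, hn, hn'⟩ := ((I_elim hI hpos (br s)).and (eventually_ge_atTop s.length)).exists
      obtain ⟨γ, hγ, hγ'⟩ := hn
      refine ih γ hγ ((!(br s n)) :: rp (br s) n) (I_sub hγ' ?_)
      have h1 : s <:+ rp (br s) n := by
        have := rp_suffix (br s) hn'
        rwa [rp_br] at this
      intro t ht
      refine ⟨h1.trans ((List.suffix_cons _ _).trans ht), (List.suffix_cons _ _).trans ht, ?_⟩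
      intro h2
      have h3 := suffix_eq h2 ht (by simp [rp])
      simp only [rp, List.cons.injEq, and_true] at h3
      cases hb : br s n <;> simp [hb] at h3

lemma Gs_univ (β : Ordinal.{0}) : Gs β Set.univ := by
  refine ⟨⟨[], trivial⟩, fun γ _ h => not_I_cn γ [] ?_⟩
  exact I_sub h (subset_univ _)

/-- countable ranks at which `A` is small -/
def rks (A : Set Node) : Set Ordinal.{0} := {β | β < ω₁ ∧ I β A}

lemma I_iff_rks {β : Ordinal.{0}} {A : Set Node} : I β A ↔ (rks A).Nonempty ∧ sInf (rks A) ≤ β := by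
  constructor
  · intro h
    obtain ⟨β', h1, h2⟩ := I_countable h
    have h3 : min β β' ∈ rks A := by
      refine ⟨lt_of_le_of_lt (min_le_right _ _) h1, ?_⟩
      rcases le_total β β' with h4 | h4
      · rw [min_eq_left h4]; exact h
      · rw [min_eq_right h4]; exact h2
    exact ⟨⟨_, h3⟩, (csInf_le' h3).trans (min_le_left _ _)⟩
  · rintro ⟨h1, h2⟩
    exact I_mono (csInf_mem h1).2 h2

/-- code of the rank -/
noncomputable def rc (A : Set Node) : Option (ω₁ : Ordinal.{0}).ToType :=
  open Classical in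
  if h : (rks A).Nonempty then some (Ordinal.ToType.mk ⟨sInf (rks A), (csInf_mem h).1⟩) else none

lemma rc_eq {A B : Set Node} (h : rc A = rc B) : ∀ β, I β A ↔ I β B := by
  intro β
  rw [I_iff_rks, I_iff_rks]
  unfold rc at h
  by_cases hA : (rks A).Nonempty <;> by_cases hB : (rks B).Nonempty
  · rw [dif_pos hA, dif_pos hB, Option.some_inj, EmbeddingLike.apply_eq_iff_eq] at h
    have h' : sInf (rks A) = sInf (rks B) := congrArg Subtype.val h
    rw [h']
    simp [hA, hB]
  · rw [dif_pos hA, dif_neg hB] at h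
    exact absurd h (by simp)
  · rw [dif_neg hA, dif_pos hB] at h
    exact absurd h (by simp)
  · simp [hA, hB]

lemma rc_congr {A B : Set Node} (h : ∀ β, I β A ↔ I β B) : rc A = rc B := by
  have : rks A = rks B := by
    ext β
    unfold rks
    simp only [mem_ofPred_eq, h]
  unfold rc
  by_cases hA : (rks A).Nonempty
  · have hB : (rks B).Nonempty := this ▸ hA
    rw [dif_pos hA, dif_pos hB]
    congr 2
    exact Subtype.ext (congrArg sInf this)
  · have hB : ¬ (rks B).Nonempty := this ▸ hA
    rw [dif_neg hA, dif_neg hB]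

/-- code of an orbit -/
noncomputable def code (A : Set Node) :
    (ℕ∞ × Option (ω₁ : Ordinal.{0}).ToType) × (ℕ∞ × Option (ω₁ : Ordinal.{0}).ToType) :=
  ((A.encard, rc A), (Aᶜ.encard, rc Aᶜ))

lemma mk_orbits_le : Cardinal.mk (Quotient (orbitSetoid H)) ≤ ℵ₁ := by
  have hinj : Function.Injective (Quotient.lift (s := orbitSetoid H) code (by
      intro A B h
      obtain ⟨⟨h1, h2⟩, h3, h4⟩ := (orbit_iff A B).mp h
      unfold code
      rw [h1, rc_congr h2, h3, rc_congr h4])) := by
    intro a b
    induction a using Quotient.inductionOn with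
    | _ A =>
      induction b using Quotient.inductionOn with
      | _ B =>
        intro h
        simp only [Quotient.lift_mk, code, Prod.mk.injEq] at h
        obtain ⟨⟨h1, h2⟩, h3, h4⟩ := h
        exact Quotient.sound ((orbit_iff A B).mpr ⟨⟨h1, rc_eq h2⟩, h3, rc_eq h4⟩)
  refine (Cardinal.mk_le_of_injective hinj).trans ?_
  have hW : Cardinal.mk (ω₁ : Ordinal.{0}).ToType = ℵ₁ := by
    rw [Cardinal.mk_toType]; simp
  have hO : Cardinal.mk (Option (ω₁ : Ordinal.{0}).ToType) ≤ ℵ₁ := by
    rw [Cardinal.mk_option, hW]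
    exact Cardinal.add_le_of_le (Cardinal.aleph0_le_aleph 1) le_rfl
      (Cardinal.one_lt_aleph0.le.trans (Cardinal.aleph0_le_aleph 1))
  have hN : Cardinal.mk ℕ∞ ≤ ℵ₁ :=
    (Cardinal.mk_le_aleph0 (α := ℕ∞)).trans (Cardinal.aleph0_le_aleph 1)
  have hP : Cardinal.mk (ℕ∞ × Option (ω₁ : Ordinal.{0}).ToType) ≤ ℵ₁ := by
    rw [Cardinal.mk_prod, Cardinal.lift_id, Cardinal.lift_id]
    exact Cardinal.mul_le_of_le (Cardinal.aleph0_le_aleph 1) hN hO
  rw [Cardinal.mk_prod, Cardinal.lift_id]
  exact Cardinal.mul_le_of_le (Cardinal.aleph0_le_aleph 1) hP hP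

lemma le_mk_orbits : ℵ₁ ≤ Cardinal.mk (Quotient (orbitSetoid H)) := by
  have hW : Cardinal.mk (ω₁ : Ordinal.{0}).ToType = ℵ₁ := by
    rw [Cardinal.mk_toType]; simp
  rw [← hW]
  have hex : ∀ w : (ω₁ : Ordinal.{0}).ToType, ∃ C : Set Node,
      I (Ordinal.ToType.mk.symm w).1 C ∧ G (Ordinal.ToType.mk.symm w).1 C := by
    intro w
    have hw : (Ordinal.ToType.mk.symm w).1 < ω₁ := (Ordinal.ToType.mk.symm w).2
    obtain ⟨C, -, h1, h2⟩ := down _ hw Set.univ (Gs_univ _)
    exact ⟨C, h1, h2.2⟩
  choose C hI hG using hex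
  refine Cardinal.mk_le_of_injective (f := fun w => (Quotient.mk (orbitSetoid H) (C w))) ?_
  intro w w' h
  have h1 := ((orbit_iff _ _).mp (Quotient.exact h)).1.2
  apply Ordinal.ToType.mk.symm.injective
  apply Subtype.ext
  by_contra hne
  rcases lt_or_gt_of_ne hne with h2 | h2
  · exact hG w' _ h2 ((h1 _).mp (hI w))
  · exact hG w _ h2 ((h1 _).mpr (hI w'))

/-- There is a permutation group `H` on a countable set `Ω` whose number of orbits on the power set
of `Ω` is exactly `ℵ₁`; in particular, if the continuum hypothesis fails, this number lies strictly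
between `ℵ₀` and the continuum. -/
theorem result : ∃ (Ω : Type) (_ : Countable Ω) (H : Subgroup (Equiv.Perm Ω)),
    Cardinal.mk (Quotient (orbitSetoid H)) = ℵ₁ ∧
      (Cardinal.continuum.{0} ≠ ℵ₁ → ℵ₀ < Cardinal.mk (Quotient (orbitSetoid H)) ∧
        Cardinal.mk (Quotient (orbitSetoid H)) < Cardinal.continuum) := by
  have h : Cardinal.mk (Quotient (orbitSetoid H)) = ℵ₁ := le_antisymm mk_orbits_le le_mk_orbits
  refine ⟨Node, inferInstance, H, h, fun hc => ?_⟩
  rw [h]
  exact ⟨Cardinal.aleph0_lt_aleph_one, lt_of_le_of_ne Cardinal.aleph_one_le_continuum hc.symm⟩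

end Pool.Agent.Results.MP_7a24ab_lc.Aleph1Orbits
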